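import Pool.Agent.MP_cb5d7d_al.Final

/-! Own statement beside the frozen proof S03057. -/

namespace Pool.Agent.Results.MP_cb5d7d_al.NotCantor

open Set Topology Pool.Agent.MP_cb5d7d_al

/-- left-invariant circular orders on G, as a subset of the product space {-1,0,1}^(G^3) -/
def circOrders (G : Type) [Group G] : Set (G × G × G → SignType) :=
  {c | (∀ a b d : G, c (a, b, d) = 0 ↔ (a = b ∨ b = d ∨ a = d)) ∧
    (∀ g₁ g₂ g₃ g₄ : G, (c (g₂, g₃, g₄) : ℤ) - (c (g₁, g₃, g₄) : ℤ) + (c (g₁, g₂, g₄) : ℤ)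
      - (c (g₁, g₂, g₃) : ℤ) = 0) ∧
    (∀ h a b d : G, c (h * a, h * b, h * d) = c (a, b, d))}

/-- the set of accumulation points of the space CO(G) -/
def accPoints (G : Type) [Group G] : Set (circOrders G) := derivedSet (univ : Set (circOrders G))

lemma cast_inj {s t : SignType} (h : (s : ℤ) = (t : ℤ)) : s = t := by
  cases s <;> cases t <;> simp_all

lemma cast_sign {m : ℤ} (h : m = 0 ∨ m = 1 ∨ m = -1) : ((SignType.sign m : SignType) : ℤ) = m := by
  rcases h with rfl | rfl | rfl <;> simp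

lemma general {X : Type} [TopologicalSpace X] [CompactSpace X] [T2Space X] {O : Set X}
    (hO : IsClopen O) (h1 : O.Infinite) (h2 : O.Countable) :
    ∃ c ∈ derivedSet (univ : Set X), c ∉ derivedSet (derivedSet (univ : Set X)) ∧
      ∀ K : Set X, c ∈ K → IsEmpty (K ≃ₜ cantorSet) := by
  obtain ⟨c0, hc0, hacc⟩ := h1.exists_accPt_of_subset_isCompact hO.1.isCompact Subset.rfl
  have hc0' : c0 ∈ derivedSet (univ : Set X) := hacc.mono (by simp)
  let Y : Set X := derivedSet univ ∩ O
  have hY : IsClosed Y := (isClosed_derivedSet _).inter hO.1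
  have : CompactSpace Y := isCompact_iff_compactSpace.mp hY.isCompact
  have : Countable Y := (h2.mono inter_subset_right).to_subtype
  have : Nonempty Y := ⟨⟨c0, hc0', hc0⟩⟩
  obtain ⟨y, z, hz⟩ := nonempty_interior_of_iUnion_of_closed (X := Y) (f := fun y : Y => {y})
    (fun _ => isClosed_singleton) (iUnion_of_singleton _)
  have hzy : z = y := mem_singleton_iff.mp (interior_subset hz)
  subst hzy
  obtain ⟨V, hV, hVz⟩ := isOpen_induced_iff.mp (isOpen_interior (s := ({z} : Set Y)))
  refine ⟨z.1, z.2.1, ?_, ?_⟩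
  · intro hd
    rw [mem_derivedSet, accPt_iff_nhds] at hd
    have hzV : z.1 ∈ V := by
      have : z ∈ Subtype.val ⁻¹' V := by rw [hVz]; exact hz
      exact this
    obtain ⟨w, ⟨⟨hwV, hwO⟩, hwD⟩, hne⟩ := hd (V ∩ O) ((hV.inter hO.2).mem_nhds ⟨hzV, z.2.2⟩)
    have : (⟨w, hwD, hwO⟩ : Y) ∈ interior ({z} : Set Y) := by rw [← hVz]; exact hwV
    exact hne (congrArg Subtype.val (mem_singleton_iff.mp (interior_subset this)))
  · intro K hK
    refine ⟨fun φ0 => ?_⟩
    let φ := φ0.trans cantorSetHomeomorphNatToBool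
    let O' : Set K := Subtype.val ⁻¹' O
    have hO' : IsOpen O' := hO.2.preimage continuous_subtype_val
    have hcount : O'.Countable :=
      h2.preimage_of_injOn (f := (Subtype.val : K → X)) Subtype.val_injective.injOn
    exact cantor_open_uncountable (φ.isOpenMap _ hO') ⟨φ ⟨z.1, hK⟩, ⟨z.1, hK⟩, z.2.2, rfl⟩
      (hcount.image _)

theorem result : ∃ (G : Type) (_ : Group G), Group.FG G ∧ Countable G ∧
    (accPoints G).Nonempty ∧ IsEmpty (accPoints G ≃ₜ cantorSet) ∧
    ∃ c ∈ accPoints G, c ∉ derivedSet (accPoints G) ∧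
      ∀ K : Set (circOrders G), c ∈ K → IsEmpty (K ≃ₜ cantorSet) := by
  refine ⟨Gam, inferInstance, ?_, inferInstance, ?_⟩
  · unfold Gam
    exact Group.closure_finite_fg _
  let Φ : (Gam × Gam × Gam → SignType) → (Gam → Gam → Gam → ℤ) := fun c a b d => (c (a, b, d) : ℤ)
  have hΦ : Continuous Φ := by
    refine continuous_pi fun a => continuous_pi fun b => continuous_pi fun d => ?_
    exact (continuous_of_discreteTopology (f := fun s : SignType => (s : ℤ))).comp
      (continuous_apply _)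
  have hinj : Function.Injective Φ := by
    intro c c' h
    funext ⟨a, b, d⟩
    exact cast_inj (congrFun (congrFun (congrFun h a) b) d)
  have hpre : circOrders Gam = Φ ⁻¹' {c | IsCO c} := by
    ext c
    constructor
    · rintro ⟨h0, h1, h2⟩
      refine ⟨fun a b d => ?_, fun a b d => ?_, h1, fun g a b d => ?_⟩
      · show (c (a, b, d) : ℤ) = 0 ∨ (c (a, b, d) : ℤ) = 1 ∨ (c (a, b, d) : ℤ) = -1
        cases c (a, b, d) <;> simp
      · rw [← h0]
        show (c (a, b, d) : ℤ) = 0 ↔ _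
        cases c (a, b, d) <;> simp
      · show (c (g * a, g * b, g * d) : ℤ) = (c (a, b, d) : ℤ)
        rw [h2]
    · intro h
      refine ⟨fun a b d => ?_, h.coc, fun g a b d => cast_inj (h.inv g a b d)⟩
      rw [← h.zero a b d]
      show _ ↔ (c (a, b, d) : ℤ) = 0
      cases c (a, b, d) <;> simp
  have hcl : IsClosed (circOrders Gam) := by rw [hpre]; exact co_closed.preimage hΦ
  have : CompactSpace (circOrders Gam) := isCompact_iff_compactSpace.mp hcl.isCompact
  let Ψ : circOrders Gam → (Gam → Gam → Gam → ℤ) := fun c => Φ c.1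
  have hΨ : Continuous Ψ := hΦ.comp continuous_subtype_val
  have hΨi : Function.Injective Ψ := hinj.comp Subtype.val_injective
  let O0 : Set (Gam → Gam → Gam → ℤ) :=
    {c | c SS.τ 1 SS.z = 1} ∩ ({c | c SS.τ 1 SS.e = 1} ∩ {c | c SS.τ 1 SS.L.e = 1})
  have hO0 : IsClopen O0 :=
    (clopen_eq _ _ _ _).inter ((clopen_eq _ _ _ _).inter (clopen_eq _ _ _ _))
  have himg : Ψ '' (Ψ ⁻¹' O0) = SS.U := by
    ext c
    constructor
    · rintro ⟨c', hc', rfl⟩
      have : c'.1 ∈ Φ ⁻¹' {c | IsCO c} := hpre ▸ c'.2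
      exact ⟨this, hc'⟩
    · rintro ⟨hc, hcO⟩
      have e : Φ (fun t => SignType.sign (c t.1 t.2.1 t.2.2)) = c := by
        funext a b d
        exact cast_sign (hc.val a b d)
      refine ⟨⟨fun t => SignType.sign (c t.1 t.2.1 t.2.2), ?_⟩, ?_, e⟩
      · rw [hpre, mem_preimage, e]; exact hc
      · show Φ _ ∈ O0
        rw [e]; exact hcO
  have hinf : (Ψ ⁻¹' O0).Infinite := by
    apply Set.Infinite.of_image Ψ
    rw [himg]; exact U_infinite
  have hcnt : (Ψ ⁻¹' O0).Countable := by
    apply Set.countable_of_injective_of_countable_image hΨi.injOn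
    rw [himg]; exact SS.U_countable
  obtain ⟨c, hc, h1, h2⟩ := general (hO0.preimage hΨ) hinf hcnt
  exact ⟨⟨c, hc⟩, h2 _ hc, c, hc, h1, h2⟩

end Pool.Agent.Results.MP_cb5d7d_al.NotCantor
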